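import Pool.Agent.H52.Tri.Strip

set_option autoImplicit false
open Finset

/-!
# MP_2e6055, F5, lanes 1 (helper55): strips, crossings of strips, lanes

A strip is an axis-parallel box of faces together with a direction.  A lane is a list of strips,
consecutive ones perpendicular and fully crossing each other.  Black and white lanes.
-/

namespace Pool.Agent.H55.Lane

open Pool.Agent.H75.Perc Pool.Agent.H52.Tri

/-- a strip: the box `[x0, x1] × [y0, y1]`; `hor = true`: crossed from the left to the right,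
otherwise from the bottom to the top -/
structure Sp where
  hor : Bool
  x0 : ℤ
  x1 : ℤ
  y0 : ℤ
  y1 : ℤ

/-- the faces of the strip -/
def Sp.In (s : Sp) (z : ℤ × ℤ) : Prop := (s.x0 ≤ z.1 ∧ z.1 ≤ s.x1) ∧ (s.y0 ≤ z.2 ∧ z.2 ≤ s.y1)

instance (s : Sp) (z : ℤ × ℤ) : Decidable (s.In z) := by unfold Sp.In; infer_instance

/-- the start side -/
def Sp.src (s : Sp) (z : ℤ × ℤ) : Prop := if s.hor = true then z.1 = s.x0 else z.2 = s.y0

/-- the end side -/
def Sp.tgt (s : Sp) (z : ℤ × ℤ) : Prop := if s.hor = true then z.1 = s.x1 else z.2 = s.y1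

/-- the strip is crossed (the long way) by faces of `S` -/
def Sp.Cr (s : Sp) (S : ℤ × ℤ → Prop) : Prop :=
  ∃ p q, s.src p ∧ s.tgt q ∧ Pa (fun z => S z ∧ s.In z) p q

/-- the box of the strip -/
noncomputable def Sp.box (s : Sp) : Finset (ℤ × ℤ) := Icc s.x0 s.x1 ×ˢ Icc s.y0 s.y1

theorem Sp.mem_box {s : Sp} {z : ℤ × ℤ} : z ∈ s.box ↔ s.In z := by
  unfold Sp.box Sp.In; rw [mem_product, mem_Icc, mem_Icc]

/-- nonempty, length at most `K` times the width -/
def Sp.Ok (K : ℕ) (s : Sp) : Prop := s.x0 ≤ s.x1 ∧ s.y0 ≤ s.y1 ∧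
  (s.hor = true → s.x1 - s.x0 ≤ K * (s.y1 - s.y0)) ∧
  (s.hor = false → s.y1 - s.y0 ≤ K * (s.x1 - s.x0))

theorem Sp.Cr.mono {s : Sp} {S S' : ℤ × ℤ → Prop} (h : ∀ z, s.In z → S z → S' z) (hs : s.Cr S) :
    s.Cr S' := by
  obtain ⟨p, q, h1, h2, h3⟩ := hs
  exact ⟨p, q, h1, h2, h3.mono fun z hz => ⟨h z hz.2 hz.1, hz.2⟩⟩

theorem Sp.Cr_congr {s : Sp} {S S' : ℤ × ℤ → Prop} (h : ∀ z, s.In z → (S z ↔ S' z)) :
    s.Cr S ↔ s.Cr S' :=
  ⟨fun hs => hs.mono fun z hz => (h z hz).1, fun hs => hs.mono fun z hz => (h z hz).2⟩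

/-- `s` horizontal and `t` vertical, and they cross each other completely -/
def HV (s t : Sp) : Prop := s.hor = true ∧ t.hor = false ∧ s.x0 ≤ t.x0 ∧ t.x1 ≤ s.x1 ∧
  t.y0 ≤ s.y0 ∧ s.y1 ≤ t.y1

/-- `s` and `t` are perpendicular and cross each other completely -/
def Perp (s t : Sp) : Prop := HV s t ∨ HV t s

theorem Perp.symm {s t : Sp} (h : Perp s t) : Perp t s := h.elim Or.inr Or.inl

/-- Crossings of perpendicular strips share a face. -/
theorem meet_HV {s t : Sp} (h : HV s t) {A B : ℤ × ℤ → Prop} {p q r r' : ℤ × ℤ}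
    (h1 : s.src p) (h2 : s.tgt q) (h3 : Pa A p q) (hA : ∀ z, A z → s.In z)
    (h4 : t.src r) (h5 : t.tgt r') (h6 : Pa B r r') (hB : ∀ z, B z → t.In z) :
    ∃ z, A z ∧ B z := by
  obtain ⟨hs, ht, a1, a2, a3, a4⟩ := h
  unfold Sp.src at h1 h4
  unfold Sp.tgt at h2 h5
  rw [if_pos hs] at h1 h2
  rw [if_neg (by simp [ht])] at h4 h5
  refine cross (c := t.y0) (d := t.y1) h3 ?_ h6 h4 h5 ?_ ?_
  · intro z hz
    have := hA z hz
    unfold Sp.In at this
    omega
  · intro z hz _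
    have := hB z hz
    unfold Sp.In at this
    omega
  · intro z hz _
    have := hB z hz
    unfold Sp.In at this
    omega

theorem meet {s t : Sp} (h : Perp s t) {A B : ℤ × ℤ → Prop} {p q r r' : ℤ × ℤ}
    (h1 : s.src p) (h2 : s.tgt q) (h3 : Pa A p q) (hA : ∀ z, A z → s.In z)
    (h4 : t.src r) (h5 : t.tgt r') (h6 : Pa B r r') (hB : ∀ z, B z → t.In z) :
    ∃ z, A z ∧ B z := by
  rcases h with h | h
  · exact meet_HV h h1 h2 h3 hA h4 h5 h6 hB
  · obtain ⟨z, hz1, hz2⟩ := meet_HV h h4 h5 h6 hB h1 h2 h3 hA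
    exact ⟨z, hz2, hz1⟩

/-- a path restricted to the faces joined to its start inside it -/
theorem pa_self {S : ℤ × ℤ → Prop} {p q : ℤ × ℤ} (h : Pa S p q) :
    Pa (fun z => S z ∧ Pa S p z) p q := by
  obtain ⟨h1, h2⟩ := h
  induction h2 with
  | refl => exact Pa.refl ⟨h1, Pa.refl h1⟩
  | @tail b c hb hc ih => exact ih.tail hc.1 ⟨hc.2, (ih.right.2).tail hc.1 hc.2⟩

/-- Crossings of perpendicular strips are joined. -/
theorem meet_join {s t : Sp} (h : Perp s t) {S : ℤ × ℤ → Prop} {p q r r' : ℤ × ℤ}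
    (h1 : s.src p) (h2 : s.tgt q) (h3 : Pa (fun z => S z ∧ s.In z) p q)
    (h4 : t.src r) (h5 : t.tgt r') (h6 : Pa (fun z => S z ∧ t.In z) r r') :
    Pa (fun z => S z ∧ (s.In z ∨ t.In z)) p r := by
  obtain ⟨z, hz1, hz2⟩ := meet h h1 h2 (pa_self h3) (fun z hz => hz.1.2) h4 h5 (pa_self h6)
    (fun z hz => hz.1.2)
  exact (hz1.2.mono fun y hy => ⟨hy.1, Or.inl hy.2⟩).trans
    ((hz2.2.mono fun y hy => ⟨hy.1, Or.inr hy.2⟩).symm)

/-- `p` is joined by faces of `S` in the strips of `l` to a crossing of every strip of `l` -/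
def Hooked (l : List Sp) (S : ℤ × ℤ → Prop) (u : ℤ × ℤ) : Prop :=
  ∀ s ∈ l, ∃ p q, s.src p ∧ s.tgt q ∧ Pa (fun z => S z ∧ s.In z) p q ∧
    Pa (fun z => S z ∧ ∃ t ∈ l, t.In z) u p

/-- The crossings of a lane form a connected set. -/
theorem lane_conn {S : ℤ × ℤ → Prop} : ∀ (l : List Sp), l.IsChain Perp → l ≠ [] →
    (∀ s ∈ l, s.Cr S) → ∀ s0 ∈ l.head?, ∀ p q, s0.src p → s0.tgt q →
    Pa (fun z => S z ∧ s0.In z) p q → Hooked l S p := by
  intro l
  induction l with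
  | nil => intro _ h; exact absurd rfl h
  | cons a l ih =>
    intro hch _ hC s0 hs0 p q hp hq hpq
    rw [List.head?_cons, Option.mem_def, Option.some.injEq] at hs0
    subst hs0
    intro s hs
    rcases List.mem_cons.1 hs with rfl | hs
    · exact ⟨p, q, hp, hq, hpq, Pa.refl ⟨hpq.left.1, s, List.mem_cons_self, hpq.left.2⟩⟩
    · cases l with
      | nil => exact absurd hs (by simp)
      | cons b l =>
        have hab : Perp a b := (List.isChain_cons_cons.1 hch).1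
        have hch' := (List.isChain_cons_cons.1 hch).2
        obtain ⟨p', q', hp', hq', hpq'⟩ := hC b (by simp)
        have h1 := meet_join hab hp hq hpq hp' hq' hpq'
        obtain ⟨p2, q2, g1, g2, g3, g4⟩ := ih hch' (by simp)
          (fun s hs => hC s (List.mem_cons_of_mem _ hs)) b (by simp) p' q' hp' hq' hpq' s hs
        refine ⟨p2, q2, g1, g2, g3, (h1.mono ?_).trans (g4.mono ?_)⟩
        · rintro y ⟨hy1, hy2 | hy2⟩
          · exact ⟨hy1, a, by simp, hy2⟩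
          · exact ⟨hy1, b, by simp, hy2⟩
        · rintro y ⟨hy1, t, ht, hy2⟩
          exact ⟨hy1, t, List.mem_cons_of_mem _ ht, hy2⟩

/-- swap of the coordinates -/
def sw (z : ℤ × ℤ) : ℤ × ℤ := (z.2, z.1)

theorem sw_sw (z : ℤ × ℤ) : sw (sw z) = z := rfl

theorem TA_sw {a b : ℤ × ℤ} (h : TA a b) : TA (sw a) (sw b) := by
  have := h.cases
  apply TA.of_cases
  unfold sw
  simp only
  omega

/-- swap as an embedding -/
def swE : (ℤ × ℤ) ↪ (ℤ × ℤ) := ⟨sw, fun a b h => by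
  have := congrArg sw h
  rwa [sw_sw, sw_sw] at this⟩

theorem Sp.Cr_inc (s : Sp) : Inc (fun w : Finset (ℤ × ℤ) => s.Cr (fun z => z ∈ w)) := by
  intro w w' hw h
  exact h.mono fun z _ hz => hw hz

theorem Sp.Cr_restrict (s : Sp) (w T : Finset (ℤ × ℤ)) (hT : s.box ⊆ T) :
    s.Cr (fun z => z ∈ w) ↔ s.Cr (fun z => z ∈ w ∩ T) := by
  apply Sp.Cr_congr
  intro z hz
  rw [mem_inter]
  exact ⟨fun h => ⟨h, hT (Sp.mem_box.2 hz)⟩, fun h => h.1⟩

/-- Crossing probability of a strip. -/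
theorem strip_pr (K : ℕ) : ∃ c : ℝ, 0 < c ∧ c ≤ 1 ∧ ∀ s : Sp, s.Ok K → ∀ E : Finset (ℤ × ℤ),
    s.box ⊆ E → c ≤ Pr E (fun w => s.Cr (fun z => z ∈ w)) := by
  obtain ⟨c, hc, hstr⟩ := strip K
  have key : ∀ s : Sp, s.Ok K → s.hor = true → ∀ E : Finset (ℤ × ℤ), s.box ⊆ E →
      c ≤ Pr E (fun w => s.Cr (fun z => z ∈ w)) := by
    intro s hs hh E hE
    obtain ⟨h1, h2, h3, -⟩ := hs
    have e1 : ((s.x1 - s.x0).toNat : ℤ) = s.x1 - s.x0 := Int.toNat_of_nonneg (by omega)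
    have e2 : ((s.y1 - s.y0).toNat : ℤ) = s.y1 - s.y0 := Int.toNat_of_nonneg (by omega)
    have h4 : (s.x1 - s.x0).toNat ≤ K * (s.y1 - s.y0).toNat := by
      have := h3 hh
      rw [← e1, ← e2] at this
      exact_mod_cast this
    have h5 := hstr s.x0 s.y0 _ _ h4 E (by
      intro z hz
      apply hE
      rw [mem_Bxx] at hz
      rw [Sp.mem_box]
      unfold Sp.In
      omega)
    refine h5.trans (Pr_mono ?_)
    rintro w _ ⟨p, q, hp, hq, hpq⟩
    refine ⟨p, q, ?_, ?_, hpq.mono ?_⟩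
    · unfold Sp.src; rw [if_pos hh]; exact hp
    · unfold Sp.tgt; rw [if_pos hh]; omega
    · intro z hz
      refine ⟨hz.1, ?_⟩
      unfold Sp.In
      omega
  refine ⟨min c 1, lt_min hc one_pos, min_le_right _ _, ?_⟩
  intro s hs E hE
  refine (min_le_left _ _).trans ?_
  cases hh : s.hor
  · -- vertical: swap
    set s' : Sp := ⟨true, s.y0, s.y1, s.x0, s.x1⟩ with hs'
    have hok : s'.Ok K := ⟨hs.2.1, hs.1, fun _ => hs.2.2.2 hh, fun h => by simp [hs'] at h⟩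
    have hE' : s'.box ⊆ E.map swE := by
      intro z hz
      rw [Sp.mem_box] at hz
      rw [mem_map]
      refine ⟨sw z, hE ?_, sw_sw z⟩
      rw [Sp.mem_box]
      unfold Sp.In at hz ⊢
      exact ⟨hz.2, hz.1⟩
    have h1 := key s' hok rfl (E.map swE) hE'
    rw [Pr_map] at h1
    refine h1.trans (Pr_mono ?_)
    rintro w _ ⟨p, q, hp, hq, hpq⟩
    refine ⟨sw p, sw q, ?_, ?_, pa_map sw (fun a b => TA_sw) ?_ hpq⟩
    · unfold Sp.src at hp ⊢
      rw [if_pos rfl] at hp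
      rw [if_neg (by simp [hh])]
      exact hp
    · unfold Sp.tgt at hq ⊢
      rw [if_pos rfl] at hq
      rw [if_neg (by simp [hh])]
      exact hq
    · rintro z ⟨hz1, hz2⟩
      rw [mem_map] at hz1
      obtain ⟨y, hy, hyz⟩ := hz1
      refine ⟨?_, ?_⟩
      · have : sw z = y := by rw [← hyz]; exact sw_sw y
        rw [this]; exact hy
      · unfold Sp.In at hz2 ⊢
        exact ⟨hz2.2, hz2.1⟩
  · exact key s hs hh E hE

/-- Complementation preserves the fair product measure. -/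
theorem Pr_compl (E : Finset (ℤ × ℤ)) (A : Finset (ℤ × ℤ) → Prop) :
    Pr E (fun w => A (E \ w)) = Pr E A := by
  classical
  rw [Pr_eq, Pr_eq]
  congr 1
  norm_cast
  apply card_nbij' (fun w => E \ w) (fun w => E \ w)
  · intro w hw
    rw [mem_coe, mem_filter, mem_powerset] at hw ⊢
    exact ⟨sdiff_subset, hw.2⟩
  · intro w hw
    rw [mem_coe, mem_filter, mem_powerset] at hw ⊢
    refine ⟨sdiff_subset, ?_⟩
    rw [Finset.sdiff_sdiff_eq_self hw.1]
    exact hw.2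
  · intro w hw
    rw [mem_coe, mem_filter, mem_powerset] at hw
    exact Finset.sdiff_sdiff_eq_self hw.1
  · intro w hw
    rw [mem_coe, mem_filter, mem_powerset] at hw
    exact Finset.sdiff_sdiff_eq_self hw.1

/-- crossings of all strips of a list by faces of `w` -/
theorem list_pr (K : ℕ) : ∃ c : ℝ, 0 < c ∧ c ≤ 1 ∧ ∀ l : List Sp, (∀ s ∈ l, s.Ok K) →
    ∀ E : Finset (ℤ × ℤ), (∀ s ∈ l, s.box ⊆ E) →
    c ^ l.length ≤ Pr E (fun w => ∀ s ∈ l, s.Cr (fun z => z ∈ w)) := by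
  obtain ⟨c, hc, hc1, hstr⟩ := strip_pr K
  refine ⟨c, hc, hc1, ?_⟩
  intro l
  induction l with
  | nil =>
    intro _ E _
    rw [List.length_nil, pow_zero, ← Pr_true E]
    exact Pr_mono fun w _ _ s hs => absurd hs (by simp)
  | cons a l ih =>
    intro hok E hE
    have h1 := ih (fun s hs => hok s (List.mem_cons_of_mem _ hs)) E
      (fun s hs => hE s (List.mem_cons_of_mem _ hs))
    have h2 := hstr a (hok a (by simp)) E (hE a (by simp))
    have hI : Inc (fun w : Finset (ℤ × ℤ) => ∀ s ∈ l, s.Cr (fun z => z ∈ w)) :=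
      fun w w' hw h s hs => s.Cr_inc w w' hw (h s hs)
    have h3 := Pr_harris E (Sp.Cr_inc a) hI
    rw [List.length_cons, pow_succ, mul_comm]
    refine (mul_le_mul h2 h1 (by positivity) (Pr_nonneg _ _)).trans (h3.trans (Pr_mono ?_))
    rintro w _ ⟨g1, g2⟩ s hs
    rcases List.mem_cons.1 hs with rfl | hs
    · exact g1
    · exact g2 s hs

/-- the faces of the strips of a list -/
noncomputable def boxes (l : List Sp) : Finset (ℤ × ℤ) := by
  classical exact l.foldr (fun s T => s.box ∪ T) ∅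

theorem mem_boxes {l : List Sp} {z : ℤ × ℤ} : z ∈ boxes l ↔ ∃ s ∈ l, s.In z := by
  classical
  induction l with
  | nil => simp [boxes]
  | cons a l ih =>
    have : boxes (a :: l) = a.box ∪ boxes l := by unfold boxes; rw [List.foldr_cons]
    rw [this, mem_union, ih, Sp.mem_box]
    simp

/-- Black strips `lb` and white strips `lw` with disjoint faces. -/
theorem lanes_pr (K : ℕ) : ∃ c : ℝ, 0 < c ∧ c ≤ 1 ∧ ∀ lb lw : List Sp, (∀ s ∈ lb, s.Ok K) →
    (∀ s ∈ lw, s.Ok K) → (∀ s ∈ lb, ∀ t ∈ lw, ∀ z, s.In z → ¬ t.In z) →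
    ∀ E : Finset (ℤ × ℤ), boxes lb ⊆ E → boxes lw ⊆ E →
    c ^ (lb.length + lw.length) ≤ Pr E (fun w => (∀ s ∈ lb, s.Cr (fun z => z ∈ w)) ∧
      ∀ s ∈ lw, s.Cr (fun z => z ∉ w)) := by
  obtain ⟨c, hc, hc1, hl⟩ := list_pr K
  refine ⟨c, hc, hc1, ?_⟩
  intro lb lw hb hw hd E hEb hEw
  have sub : ∀ (l : List Sp), ∀ s ∈ l, s.box ⊆ boxes l := by
    intro l s hs z hz
    exact mem_boxes.2 ⟨s, hs, Sp.mem_box.1 hz⟩
  have h1 := hl lb hb (boxes lb) (sub lb)
  have h2 := hl lw hw (boxes lw) (sub lw)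
  rw [← Pr_compl] at h2
  have hdj : Disjoint (boxes lb) (boxes lw) := by
    rw [disjoint_left]
    intro z hz hz'
    obtain ⟨s, hs, hz⟩ := mem_boxes.1 hz
    obtain ⟨t, ht, hz'⟩ := mem_boxes.1 hz'
    exact hd s hs t ht z hz hz'
  have h3 := Pr_indep hEb hEw hdj (fun w => ∀ s ∈ lb, s.Cr (fun z => z ∈ w))
    (fun w => ∀ s ∈ lw, s.Cr (fun z => z ∈ boxes lw \ w))
  rw [pow_add]
  refine (mul_le_mul h1 h2 (by positivity) (Pr_nonneg _ _)).trans ?_
  rw [← h3]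
  apply Pr_mono
  rintro w _ ⟨g1, g2⟩
  refine ⟨fun s hs => (g1 s hs).mono fun z _ hz => (mem_inter.1 hz).1, fun s hs => (g2 s hs).mono ?_⟩
  intro z hz1 hz2 hz3
  rw [mem_sdiff, mem_inter] at hz2
  exact hz2.2 ⟨hz3, hz2.1⟩

end Pool.Agent.H55.Lane
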